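import Pool.Agent.NPX.Stmts

/-!
# Row LSC of the squad NPX (MP_005a41_gt)

Supports are lower semicontinuous.
-/

set_option autoImplicit false

open Set Topology

namespace Pool.Agent.NPX.H65

open Pool.Agent.LSG

/-- Supports are lower semicontinuous. -/
theorem lsc : LscStmt := by
  intro X Y _ _ _ T c hT O hO
  rw [isOpen_iff_mem_nhds]
  rintro y₀ ⟨a₀, ha₀, hc⟩
  classical
  -- the closed set on which `f` vanishes
  have hclosed : IsClosed (Oᶜ ∪ (((c y₀).support.erase a₀ : Finset X) : Set X)) :=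
    hO.isClosed_compl.union (Finset.finite_toSet _).isClosed
  have hdisj : Disjoint (Oᶜ ∪ (((c y₀).support.erase a₀ : Finset X) : Set X)) {a₀} := by
    rw [Set.disjoint_singleton_right]
    rintro (h | h)
    · exact h ha₀
    · simp at h
  obtain ⟨f, hf0, hf1, -⟩ := exists_continuous_zero_one_of_isClosed hclosed isClosed_singleton hdisj
  have hfa : f a₀ = 1 := hf1 rfl
  have hT0 : T f y₀ = c y₀ a₀ := by
    rw [hT f y₀, Finsupp.sum, Finset.sum_eq_single a₀]
    · rw [hfa, mul_one]
    · intro b hb hne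
      have : f b = 0 := hf0 (Or.inr (Finset.mem_coe.mpr (Finset.mem_erase.mpr ⟨hne, hb⟩)))
      rw [this, mul_zero]
    · intro h
      exact absurd (by simpa using hc) h
  have hopen : {y | T f y ≠ 0} ∈ 𝓝 y₀ := by
    apply ((T f).continuous.isOpen_preimage {z : ℝ | z ≠ 0} isOpen_ne).mem_nhds
    show T f y₀ ≠ 0
    rw [hT0]
    exact hc
  filter_upwards [hopen] with y hy
  have hy' : (c y).sum (fun x t => t * f x) ≠ 0 := by
    rw [← hT f y]
    exact hy
  obtain ⟨a, _, ha⟩ := Finset.exists_ne_zero_of_sum_ne_zero hy'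
  refine ⟨a, ?_, left_ne_zero_of_mul ha⟩
  by_contra hcon
  exact right_ne_zero_of_mul ha (hf0 (Or.inl hcon))

end Pool.Agent.NPX.H65
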